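import Pool.Agent.W2helper90.SM.Stm

/-! Piece BATH of project SM (helper90): the bathtub principle with a uniform error. -/

set_option autoImplicit false

open MeasureTheory Set Filter Topology

namespace Pool.Agent.W2helper90.SM

noncomputable section

/-- the constant of LAT divided by `(2 π)^n` -/
def LL (n : ℕ) : ℝ :=
  Real.pi ^ ((n : ℝ) / 2) / Real.Gamma ((n : ℝ) / 2 + 2) / (2 * Real.pi) ^ n

theorem LL_pos (n : ℕ) : 0 < LL n := by
  have hg : 0 < Real.Gamma ((n : ℝ) / 2 + 2) := Real.Gamma_pos_of_pos (by positivity)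
  unfold LL
  have := Real.pi_pos
  positivity

/-- the chemical potential -/
def muu (n : ℕ) (A t : ℝ) : ℝ :=
  4 * Real.pi * (t * (Real.Gamma ((n : ℝ) / 2 + 1) / A)) ^ (2 / (n : ℝ))

theorem muu_nonneg (n : ℕ) (A t : ℝ) (hA : 0 < A) (ht : 0 ≤ t) : 0 ≤ muu n A t := by
  have hg : 0 < Real.Gamma ((n : ℝ) / 2 + 1) := Real.Gamma_pos_of_pos (by positivity)
  unfold muu
  have := Real.pi_pos
  positivity

theorem muu_mono (n : ℕ) (A t T : ℝ) (hA : 0 < A) (ht : 0 ≤ t) (htT : t ≤ T) :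
    muu n A t ≤ muu n A T := by
  have hg : 0 < Real.Gamma ((n : ℝ) / 2 + 1) := Real.Gamma_pos_of_pos (by positivity)
  unfold muu
  have := Real.pi_pos
  gcongr

theorem aa_pos (n : ℕ) (hn : 1 ≤ n) (A : ℝ) (hA : 0 < A) : 0 < aa n A := by
  have hg : 0 < Real.Gamma ((n : ℝ) / 2 + 1) := Real.Gamma_pos_of_pos (by positivity)
  have hn0 : (0 : ℝ) < n := by exact_mod_cast hn
  unfold aa
  have := Real.pi_pos
  positivity

theorem aa_muu (n : ℕ) (A t : ℝ) (hA : 0 < A) (ht : 0 ≤ t) :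
    (n : ℝ) / (n + 2) * muu n A t = aa n A * t ^ (2 / (n : ℝ)) := by
  have hg : 0 < Real.Gamma ((n : ℝ) / 2 + 1) := Real.Gamma_pos_of_pos (by positivity)
  unfold aa muu
  rw [Real.mul_rpow ht (by positivity)]
  ring

theorem main_id (n : ℕ) (hn : 1 ≤ n) (A t : ℝ) (hA : 0 < A) (ht : 0 ≤ t) :
    A * LL n * √(muu n A t) ^ (n + 2) = 2 / ((n : ℝ) + 2) * (muu n A t * t) := by
  have hg : 0 < Real.Gamma ((n : ℝ) / 2 + 1) := Real.Gamma_pos_of_pos (by positivity)
  have hn0 : (0 : ℝ) < n := by exact_mod_cast hn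
  have hπ := Real.pi_pos
  have hmu := muu_nonneg n A t hA ht
  have h1 : √(muu n A t) ^ n = (4 * Real.pi) ^ ((n : ℝ) / 2) * (t * (Real.Gamma ((n : ℝ) / 2 + 1) / A)) := by
    rw [Real.sqrt_eq_rpow, ← Real.rpow_natCast, ← Real.rpow_mul hmu]
    unfold muu
    rw [Real.mul_rpow (by positivity) (by positivity), ← Real.rpow_mul (by positivity)]
    have e1 : (2 / (n : ℝ)) * (1 / 2 * (n : ℝ)) = 1 := by field_simp
    rw [e1, Real.rpow_one]
    congr 2
    ring
  have h2 : √(muu n A t) ^ 2 = muu n A t := Real.sq_sqrt hmu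
  have hG : Real.Gamma ((n : ℝ) / 2 + 2) = ((n : ℝ) / 2 + 1) * Real.Gamma ((n : ℝ) / 2 + 1) := by
    rw [show (n : ℝ) / 2 + 2 = ((n : ℝ) / 2 + 1) + 1 by ring, Real.Gamma_add_one (by positivity)]
  have h3 : (4 * Real.pi) ^ ((n : ℝ) / 2) * Real.pi ^ ((n : ℝ) / 2) = (2 * Real.pi) ^ n := by
    rw [← Real.mul_rpow (by positivity) (by positivity),
      show 4 * Real.pi * Real.pi = (2 * Real.pi) ^ (2 : ℝ) by norm_num; ring,
      ← Real.rpow_mul (by positivity), ← Real.rpow_natCast]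
    congr 1
    ring
  rw [pow_add, h1, h2]
  unfold LL
  rw [hG, ← h3]
  have h4 : 0 < (4 * Real.pi) ^ ((n : ℝ) / 2) := by positivity
  have h5 : 0 < Real.pi ^ ((n : ℝ) / 2) := by positivity
  field_simp

theorem t_BATH (h : S_LAT) : S_BATH := by
  intro n hn A Λ η hA hΛ hη
  have hn0 : (0 : ℝ) < n := by exact_mod_cast hn
  have hπ := Real.pi_pos
  have haa := aa_pos n hn A hA
  set t₀ : ℝ := (η / aa n A) ^ ((n : ℝ) / 2) with ht₀
  have ht₀0 : 0 < t₀ := Real.rpow_pos_of_pos (by positivity) _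
  set S : ℝ := √(muu n A Λ) with hS
  have hS0 : 0 ≤ S := Real.sqrt_nonneg _
  -- the error is small
  have hev : ∀ᶠ δ : ℝ in 𝓝 0, A * LL n * ((S + δ) ^ (n + 2) - S ^ (n + 2)) < η * t₀ := by
    have hc : Continuous fun δ : ℝ => A * LL n * ((S + δ) ^ (n + 2) - S ^ (n + 2)) := by fun_prop
    have := hc.tendsto 0
    simp only [add_zero, sub_self, mul_zero] at this
    exact this.eventually (gt_mem_nhds (by positivity))
  obtain ⟨δ₀, hδ₀, hδ⟩ := Metric.eventually_nhds_iff.1 hev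
  refine ⟨2 * Real.pi * √n / (δ₀ / 2), by
    have : 0 < √(n : ℝ) := Real.sqrt_pos.2 hn0
    positivity, ?_⟩
  intro b hb K ν hν ht
  set t : ℝ := ∑ k ∈ K, ν k with htdef
  have ht0 : 0 ≤ t := Finset.sum_nonneg fun k hk => (hν k hk).1
  have hR0 : 0 ≤ ∑ k ∈ K, ee b k * ν k :=
    Finset.sum_nonneg fun k hk => mul_nonneg (Finset.sum_nonneg fun j _ => sq_nonneg _) (hν k hk).1
  have hsq : 0 < √(n : ℝ) := Real.sqrt_pos.2 hn0
  have hb0 : 0 < b := lt_of_lt_of_le (by positivity) hb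
  by_cases hcase : aa n A * t ^ (2 / (n : ℝ)) ≤ η
  · have e1 : t ^ (1 + 2 / (n : ℝ)) = t * t ^ (2 / (n : ℝ)) := by
      rcases ht0.eq_or_lt with h0 | h0
      · rw [← h0, zero_mul, Real.zero_rpow (by positivity)]
      · rw [Real.rpow_add h0, Real.rpow_one]
    have e2 : aa n A * t ^ (1 + 2 / (n : ℝ)) - η * t ≤ 0 := by
      rw [e1]
      nlinarith
    linarith
  push Not at hcase
  have htpos : 0 < t := by
    rcases ht0.eq_or_lt with h0 | h0
    · rw [← h0, Real.zero_rpow (by positivity), mul_zero] at hcase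
      linarith
    · exact h0
  have ht0t : t₀ ≤ t := by
    have e1 : η / aa n A ≤ t ^ (2 / (n : ℝ)) := by
      rw [div_le_iff₀ haa]
      linarith
    calc t₀ ≤ (t ^ (2 / (n : ℝ))) ^ ((n : ℝ) / 2) :=
          Real.rpow_le_rpow (by positivity) e1 (by positivity)
      _ = t := by
        rw [← Real.rpow_mul htpos.le]
        have : 2 / (n : ℝ) * ((n : ℝ) / 2) = 1 := by field_simp
        rw [this, Real.rpow_one]
  set μ : ℝ := muu n A t with hμ
  have hμ0 : 0 ≤ μ := muu_nonneg n A t hA ht0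
  set s : ℝ := √μ with hs
  have hs0 : 0 ≤ s := Real.sqrt_nonneg _
  have hsS : s ≤ S := Real.sqrt_le_sqrt (muu_mono n A t Λ hA ht0 ht)
  set hh : ℝ := 2 * Real.pi / b with hhh
  have hh0 : 0 < hh := by positivity
  set δ : ℝ := hh * √n with hδdef
  have hδ0 : 0 < δ := by positivity
  have hδlt : δ < δ₀ := by
    have e1 : 2 * Real.pi * √n ≤ b * (δ₀ / 2) := by
      rwa [div_le_iff₀ (by positivity)] at hb
    have e2 : δ ≤ δ₀ / 2 := by
      rw [hδdef, hhh, div_mul_eq_mul_div, div_le_iff₀ hb0]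
      linarith
    linarith
  have herr : A * LL n * ((s + δ) ^ (n + 2) - s ^ (n + 2)) ≤ η * t := by
    have e1 : (s + δ) ^ (n + 2) - s ^ (n + 2) ≤ (S + δ) ^ (n + 2) - S ^ (n + 2) := by
      -- monotone in `s`
      have e2 : ∀ m : ℕ, (s + δ) ^ m - s ^ m ≤ (S + δ) ^ m - S ^ m := by
        intro m
        induction m with
        | zero => simp
        | succ m ih =>
          have f1 : s ^ m ≤ (s + δ) ^ m := pow_le_pow_left₀ hs0 (by linarith) m
          have f2 : (s + δ) ^ m ≤ (S + δ) ^ m := pow_le_pow_left₀ (by linarith) (by linarith) m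
          have f3 : (s + δ) ^ (m + 1) - s ^ (m + 1) = s * ((s + δ) ^ m - s ^ m) + δ * (s + δ) ^ m := by
            ring
          have f4 : (S + δ) ^ (m + 1) - S ^ (m + 1) = S * ((S + δ) ^ m - S ^ m) + δ * (S + δ) ^ m := by
            ring
          rw [f3, f4]
          have f5 : s * ((s + δ) ^ m - s ^ m) ≤ S * ((S + δ) ^ m - S ^ m) :=
            mul_le_mul hsS ih (by linarith) hS0
          have f6 : δ * (s + δ) ^ m ≤ δ * (S + δ) ^ m := by gcongr
          linarith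
      exact e2 _
    have e3 := hδ (show dist δ 0 < δ₀ by rwa [Real.dist_eq, sub_zero, abs_of_pos hδ0])
    have hLL := LL_pos n
    calc A * LL n * ((s + δ) ^ (n + 2) - s ^ (n + 2))
        ≤ A * LL n * ((S + δ) ^ (n + 2) - S ^ (n + 2)) := by gcongr
      _ ≤ η * t₀ := e3.le
      _ ≤ η * t := by gcongr
  -- the lattice sum
  have hlat := h n hn hh s hh0 hs0 K
  have hee : ∀ k : Fin n → ℤ, ee b k = hh ^ 2 * ∑ j, (k j : ℝ) ^ 2 := by
    intro k
    unfold ee fq
    rw [Finset.mul_sum]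
    refine Finset.sum_congr rfl fun j _ => ?_
    rw [mul_pow]
  have hs2 : s ^ 2 = μ := Real.sq_sqrt hμ0
  have e1 : ∑ k ∈ K, ee b k * ν k ≥ μ * t - ∑ k ∈ K, max (μ - ee b k) 0 * ν k := by
    rw [ge_iff_le, htdef, Finset.mul_sum, ← Finset.sum_sub_distrib]
    refine Finset.sum_le_sum fun k hk => ?_
    have := (hν k hk).1
    have h1 : μ - ee b k ≤ max (μ - ee b k) 0 := le_max_left _ _
    nlinarith
  have e2 : ∑ k ∈ K, max (μ - ee b k) 0 * ν k ≤
      A / b ^ n * ∑ k ∈ K, max (s ^ 2 - hh ^ 2 * ∑ j, (k j : ℝ) ^ 2) 0 := by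
    rw [Finset.mul_sum]
    refine Finset.sum_le_sum fun k hk => ?_
    rw [hs2, ← hee k, mul_comm (A / b ^ n)]
    exact mul_le_mul_of_nonneg_left (hν k hk).2 (le_max_right _ _)
  have e3 : A / b ^ n * ∑ k ∈ K, max (s ^ 2 - hh ^ 2 * ∑ j, (k j : ℝ) ^ 2) 0 ≤
      A * LL n * (s + δ) ^ (n + 2) := by
    have f1 : hh ^ n = (2 * Real.pi) ^ n / b ^ n := by rw [hhh, div_pow]
    have f2 : 0 < (2 * Real.pi) ^ n := by positivity
    have f3 : A / b ^ n = A / (2 * Real.pi) ^ n * hh ^ n := by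
      rw [f1]; field_simp
    rw [f3, mul_assoc]
    calc A / (2 * Real.pi) ^ n * (hh ^ n * ∑ k ∈ K, max (s ^ 2 - hh ^ 2 * ∑ j, (k j : ℝ) ^ 2) 0)
        ≤ A / (2 * Real.pi) ^ n *
          ((s + hh * √n) ^ (n + 2) * (Real.pi ^ ((n : ℝ) / 2) / Real.Gamma ((n : ℝ) / 2 + 2))) :=
          mul_le_mul_of_nonneg_left hlat (by positivity)
      _ = A * LL n * (s + δ) ^ (n + 2) := by
          unfold LL
          rw [hδdef]
          ring
  have e4 := main_id n hn A t hA ht0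
  rw [← hμ, ← hs] at e4
  have e5 : aa n A * t ^ (1 + 2 / (n : ℝ)) = (n : ℝ) / (n + 2) * (μ * t) := by
    rw [Real.rpow_add htpos, Real.rpow_one]
    have := aa_muu n A t hA ht0
    rw [← hμ] at this
    calc aa n A * (t * t ^ (2 / (n : ℝ))) = t * (aa n A * t ^ (2 / (n : ℝ))) := by ring
      _ = t * ((n : ℝ) / (n + 2) * μ) := by rw [this]
      _ = _ := by ring
  rw [e5]
  have e6 : (n : ℝ) / (n + 2) * (μ * t) = μ * t - 2 / ((n : ℝ) + 2) * (μ * t) := by
    field_simp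
    ring
  rw [e6, ← e4]
  have e7 : A * LL n * ((s + δ) ^ (n + 2) - s ^ (n + 2)) =
      A * LL n * (s + δ) ^ (n + 2) - A * LL n * s ^ (n + 2) := by ring
  linarith

end

end Pool.Agent.W2helper90.SM
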