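import Pool.Agent.W2helper90.SM.Stm

/-! Piece LAT of project SM (helper90): a lattice sum is at most an integral over a ball. -/

set_option autoImplicit false

open MeasureTheory Set

namespace Pool.Agent.W2helper90.SM

noncomputable section

/-- the integral over the ball in Euclidean space -/
theorem lat_ball_euclid (n : ℕ) (hn : 1 ≤ n) (r : ℝ) (hr : 0 ≤ r) :
    ∫ x : EuclideanSpace ℝ (Fin n), max (r ^ 2 - ‖x‖ ^ 2) 0 =
      r ^ (n + 2) * (Real.pi ^ ((n : ℝ) / 2) / Real.Gamma ((n : ℝ) / 2 + 2)) := by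
  have : Nonempty (Fin n) := ⟨⟨0, hn⟩⟩
  have hn0 : (0 : ℝ) < n := by exact_mod_cast hn
  have h1 := integral_fun_norm_addHaar (volume : Measure (EuclideanSpace ℝ (Fin n)))
    (fun t : ℝ => max (r ^ 2 - t ^ 2) 0)
  rw [h1, finrank_euclideanSpace_fin]
  have hvol : (volume : Measure (EuclideanSpace ℝ (Fin n))).real (Metric.ball 0 1) =
      Real.pi ^ ((n : ℝ) / 2) / Real.Gamma ((n : ℝ) / 2 + 1) := by
    have hg : 0 < Real.Gamma ((n : ℝ) / 2 + 1) := Real.Gamma_pos_of_pos (by positivity)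
    unfold Measure.real
    rw [EuclideanSpace.volume_ball]
    simp only [ENNReal.ofReal_one, one_pow, one_mul, Fintype.card_fin]
    rw [ENNReal.toReal_ofReal (by positivity)]
    congr 1
    rw [Real.sqrt_eq_rpow, ← Real.rpow_natCast, ← Real.rpow_mul Real.pi_pos.le]
    congr 1
    ring
  rw [hvol]
  have h2 : ∫ y in Ioi (0 : ℝ), y ^ (n - 1) • max (r ^ 2 - y ^ 2) 0 =
      r ^ (n + 2) * (2 / (n * (n + 2))) := by
    have h3 : ∫ y in Ioi (0 : ℝ), y ^ (n - 1) • max (r ^ 2 - y ^ 2) 0 =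
        ∫ y in Ioc (0 : ℝ) r, y ^ (n - 1) * (r ^ 2 - y ^ 2) := by
      rw [← integral_indicator measurableSet_Ioi, ← integral_indicator measurableSet_Ioc]
      congr 1
      funext y
      simp only [indicator, mem_Ioi, mem_Ioc, smul_eq_mul]
      by_cases hy : 0 < y
      · by_cases hyr : y ≤ r
        · rw [if_pos hy, if_pos ⟨hy, hyr⟩, max_eq_left (by nlinarith)]
        · rw [if_pos hy, if_neg (fun h => hyr h.2), max_eq_right (by nlinarith), mul_zero]
      · rw [if_neg hy, if_neg (fun h => hy h.1)]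
    rw [h3, ← intervalIntegral.integral_of_le hr]
    have h4 : ∀ y : ℝ, y ^ (n - 1) * (r ^ 2 - y ^ 2) = r ^ 2 * y ^ (n - 1) - y ^ (n + 1) := by
      intro y
      have : y ^ (n + 1) = y ^ (n - 1) * y ^ 2 := by
        rw [← pow_add]; congr 1; omega
      rw [this]; ring
    simp_rw [h4]
    rw [intervalIntegral.integral_sub (Continuous.intervalIntegrable (by fun_prop) _ _)
      (Continuous.intervalIntegrable (by fun_prop) _ _), intervalIntegral.integral_const_mul, integral_pow,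
      integral_pow]
    obtain ⟨k, rfl⟩ : ∃ k, n = k + 1 := ⟨n - 1, by omega⟩
    simp only [Nat.add_sub_cancel]
    push_cast
    have hk : (0 : ℝ) < (k : ℝ) + 1 := by positivity
    rw [zero_pow (by omega), zero_pow (by omega)]
    field_simp
    ring
  rw [h2]
  have hg : 0 < Real.Gamma ((n : ℝ) / 2 + 1) := Real.Gamma_pos_of_pos (by positivity)
  have hG : Real.Gamma ((n : ℝ) / 2 + 2) = ((n : ℝ) / 2 + 1) * Real.Gamma ((n : ℝ) / 2 + 1) := by
    rw [show (n : ℝ) / 2 + 2 = ((n : ℝ) / 2 + 1) + 1 by ring, Real.Gamma_add_one (by positivity)]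
  rw [hG, nsmul_eq_mul, smul_eq_mul]
  field_simp

theorem lat_ball (n : ℕ) (hn : 1 ≤ n) (r : ℝ) (hr : 0 ≤ r) :
    ∫ x : Fin n → ℝ, max (r ^ 2 - ∑ j, x j ^ 2) 0 =
      r ^ (n + 2) * (Real.pi ^ ((n : ℝ) / 2) / Real.Gamma ((n : ℝ) / 2 + 2)) := by
  rw [← lat_ball_euclid n hn r hr]
  have h := (EuclideanSpace.volume_preserving_symm_measurableEquiv_toLp (Fin n)).integral_comp
    (MeasurableEquiv.measurableEmbedding _) (fun x : Fin n → ℝ => max (r ^ 2 - ∑ j, x j ^ 2) 0)
  rw [← h]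
  congr 1
  funext x
  rw [EuclideanSpace.real_norm_sq_eq]
  rfl

theorem lat_cont (n : ℕ) (r : ℝ) :
    Continuous (fun x : Fin n → ℝ => max (r ^ 2 - ∑ j, x j ^ 2) 0) := by
  fun_prop

theorem lat_int (n : ℕ) (r : ℝ) :
    Integrable (fun x : Fin n → ℝ => max (r ^ 2 - ∑ j, x j ^ 2) 0) := by
  refine (lat_cont n r).integrable_of_hasCompactSupport ?_
  refine HasCompactSupport.of_support_subset_isCompact
    (isCompact_closedBall (0 : Fin n → ℝ) (|r|)) ?_
  intro x hx
  rw [Function.mem_support] at hx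
  rw [mem_closedBall_zero_iff, pi_norm_le_iff_of_nonneg (abs_nonneg r)]
  intro i
  by_contra hcon
  push Not at hcon
  apply hx
  rw [max_eq_right]
  have h1 : x i ^ 2 ≤ ∑ j, x j ^ 2 :=
    Finset.single_le_sum (f := fun j => x j ^ 2) (fun j _ => sq_nonneg _) (Finset.mem_univ i)
  have h2 : r ^ 2 < x i ^ 2 := by
    rw [← sq_abs r, ← sq_abs (x i)]
    rw [Real.norm_eq_abs] at hcon
    have := abs_nonneg r
    nlinarith
  linarith

/-- the cell -/
def cell (n : ℕ) (h : ℝ) (k : Fin n → ℤ) : Set (Fin n → ℝ) :=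
  Set.pi univ fun j => Ico (h * k j) (h * (k j + 1))

theorem cell_meas (n : ℕ) (h : ℝ) (k : Fin n → ℤ) : MeasurableSet (cell n h k) :=
  MeasurableSet.univ_pi fun _ => measurableSet_Ico

theorem cell_vol (n : ℕ) {h : ℝ} (hh : 0 < h) (k : Fin n → ℤ) :
    (volume : Measure (Fin n → ℝ)).real (cell n h k) = h ^ n := by
  unfold cell Measure.real
  rw [Real.volume_pi_Ico, ENNReal.toReal_prod]
  have : ∀ j : Fin n, (ENNReal.ofReal (h * ((k j : ℝ) + 1) - h * k j)).toReal = h := by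
    intro j
    rw [ENNReal.toReal_ofReal (by nlinarith)]
    ring
  simp only [this, Finset.prod_const, Finset.card_univ, Fintype.card_fin]

theorem cell_disj (n : ℕ) {h : ℝ} (hh : 0 < h) {k l : Fin n → ℤ} (hkl : k ≠ l) :
    Disjoint (cell n h k) (cell n h l) := by
  rw [Set.disjoint_left]
  intro x hx hy
  apply hkl
  funext j
  have h1 := hx j (mem_univ j)
  have h2 := hy j (mem_univ j)
  rw [mem_Ico] at h1 h2
  have e1 : h * (k j : ℝ) < h * ((l j : ℝ) + 1) := lt_of_le_of_lt h1.1 h2.2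
  have e2 : h * (l j : ℝ) < h * ((k j : ℝ) + 1) := lt_of_le_of_lt h2.1 h1.2
  have e3 : (k j : ℝ) < (l j : ℝ) + 1 := lt_of_mul_lt_mul_left e1 hh.le
  have e4 : (l j : ℝ) < (k j : ℝ) + 1 := lt_of_mul_lt_mul_left e2 hh.le
  have e5 : k j < l j + 1 := by exact_mod_cast e3
  have e6 : l j < k j + 1 := by exact_mod_cast e4
  omega

/-- the Euclidean norm on a cell -/
theorem cell_norm (n : ℕ) {h : ℝ} (hh : 0 < h) (k : Fin n → ℤ) (x : Fin n → ℝ)
    (hx : x ∈ cell n h k) :
    ∑ j, x j ^ 2 ≤ (h * √(∑ j, (k j : ℝ) ^ 2) + h * √n) ^ 2 := by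
  -- Minkowski's inequality in the Euclidean space
  have h1 : √(∑ j, x j ^ 2) ≤ h * √(∑ j, (k j : ℝ) ^ 2) + h * √n := by
    have e1 : √(∑ j, x j ^ 2) = ‖(WithLp.toLp 2 x : EuclideanSpace ℝ (Fin n))‖ := by
      rw [EuclideanSpace.norm_eq]
      simp
    have e2 : h * √(∑ j, (k j : ℝ) ^ 2) =
        ‖(WithLp.toLp 2 (fun j => h * (k j : ℝ)) : EuclideanSpace ℝ (Fin n))‖ := by
      rw [EuclideanSpace.norm_eq]
      simp only [Real.norm_eq_abs, sq_abs, mul_pow]
      rw [← Finset.mul_sum, Real.sqrt_mul (by positivity), Real.sqrt_sq hh.le]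
    have e3 : ‖(WithLp.toLp 2 (fun j => x j - h * (k j : ℝ)) : EuclideanSpace ℝ (Fin n))‖ ≤
        h * √n := by
      rw [EuclideanSpace.norm_eq]
      simp only [Real.norm_eq_abs, sq_abs]
      calc √(∑ j, (x j - h * (k j : ℝ)) ^ 2) ≤ √(∑ _j : Fin n, h ^ 2) := by
            apply Real.sqrt_le_sqrt
            apply Finset.sum_le_sum
            intro j _
            have := hx j (mem_univ j)
            rw [mem_Ico] at this
            have h2 : 0 ≤ x j - h * (k j : ℝ) := by linarith [this.1]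
            have h3 : x j - h * (k j : ℝ) ≤ h := by linarith [this.2]
            nlinarith
        _ = h * √n := by
            rw [Finset.sum_const, Finset.card_univ, Fintype.card_fin, nsmul_eq_mul, mul_comm,
              Real.sqrt_mul (by positivity), Real.sqrt_sq hh.le]
    rw [e1, e2]
    have e4 : (WithLp.toLp 2 x : EuclideanSpace ℝ (Fin n)) =
        WithLp.toLp 2 (fun j => h * (k j : ℝ)) + WithLp.toLp 2 (fun j => x j - h * (k j : ℝ)) := by
      ext j
      simp
    rw [e4]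
    exact (norm_add_le _ _).trans (by gcongr)
  have h2 : 0 ≤ ∑ j, x j ^ 2 := Finset.sum_nonneg fun j _ => sq_nonneg _
  calc ∑ j, x j ^ 2 = √(∑ j, x j ^ 2) ^ 2 := (Real.sq_sqrt h2).symm
    _ ≤ _ := pow_le_pow_left₀ (Real.sqrt_nonneg _) h1 2

theorem t_LAT : S_LAT := by
  intro n hn h s hh hs K
  set r : ℝ := s + h * √n with hr
  have hr0 : 0 ≤ r := by positivity
  set F : (Fin n → ℝ) → ℝ := fun x => max (r ^ 2 - ∑ j, x j ^ 2) 0 with hF
  rw [← lat_ball n hn r hr0]
  have h1 : ∀ k ∈ K, h ^ n * max (s ^ 2 - h ^ 2 * ∑ j, (k j : ℝ) ^ 2) 0 ≤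
      ∫ x in cell n h k, F x := by
    intro k _
    have h2 : h ^ n * max (s ^ 2 - h ^ 2 * ∑ j, (k j : ℝ) ^ 2) 0 =
        ∫ _x in cell n h k, max (s ^ 2 - h ^ 2 * ∑ j, (k j : ℝ) ^ 2) 0 := by
      rw [setIntegral_const, cell_vol n hh k, smul_eq_mul]
    rw [h2]
    have hfin : (volume : Measure (Fin n → ℝ)) (cell n h k) ≠ ⊤ := by
      unfold cell
      rw [Real.volume_pi_Ico]
      exact ENNReal.prod_ne_top fun j _ => ENNReal.ofReal_ne_top
    refine setIntegral_mono_on (integrableOn_const hfin) (lat_int n r).integrableOn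
      (cell_meas n h k) ?_
    intro x hx
    have h3 := cell_norm n hh k x hx
    set q : ℝ := √(∑ j, (k j : ℝ) ^ 2) with hq
    have hq2 : q ^ 2 = ∑ j, (k j : ℝ) ^ 2 := Real.sq_sqrt (Finset.sum_nonneg fun j _ => sq_nonneg _)
    have hq0 : 0 ≤ q := Real.sqrt_nonneg _
    rw [← hq2]
    refine max_le ?_ (le_max_right _ _)
    rcases le_or_gt (h * q) s with h4 | h4
    · refine le_trans ?_ (le_max_left _ _)
      have h5 : 0 ≤ h * √n := by positivity
      have h6 : 0 ≤ h * q := by positivity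
      have h7 : s ^ 2 - h ^ 2 * q ^ 2 ≤ r ^ 2 - (h * q + h * √n) ^ 2 := by
        rw [hr]
        nlinarith [mul_nonneg h5 (sub_nonneg.2 h4)]
      linarith
    · refine le_trans ?_ (le_max_right _ _)
      nlinarith
  rw [Finset.mul_sum]
  refine (Finset.sum_le_sum h1).trans ?_
  rw [← integral_biUnion_finset K (fun k _ => cell_meas n h k)
    (fun k _ l _ hkl => cell_disj n hh hkl) (fun k _ => (lat_int n r).integrableOn)]
  exact setIntegral_le_integral (lat_int n r) (Filter.Eventually.of_forall fun x => le_max_right _ _)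

end

end Pool.Agent.W2helper90.SM
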